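import Pool.Agent.Lib.MP_72b724_gt.Interfaces

/-!
# Module THMA, part 1: the functions of the clusters, and almost good points
-/

open scoped ENNReal Topology BigOperators
open MeasureTheory Set Filter Topology Metric

namespace Pool.Agent.Lib.MP_72b724_gt.H57

section hfun

variable {M : Type} [MetricSpace M]

/-- `max (d(.,p) - ρ_p, max_q (ρ_q - d(.,q)))` -/
noncomputable def hfun (p : M × ℝ) : List (M × ℝ) → M → ℝ
  | [], x => dist x p.1 - p.2
  | q :: s, x => max (q.2 - dist x q.1) (hfun p s x)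

theorem hfun_le {p : M × ℝ} {s : List (M × ℝ)} {x : M} {t : ℝ} :
    hfun p s x ≤ t ↔ dist x p.1 - p.2 ≤ t ∧ ∀ q ∈ s, q.2 - dist x q.1 ≤ t := by
  induction s with
  | nil => simp [hfun]
  | cons q s ih =>
    simp only [hfun, max_le_iff, ih, List.mem_cons, forall_eq_or_imp]
    tauto

theorem hfun_lt {p : M × ℝ} {s : List (M × ℝ)} {x : M} {t : ℝ} :
    hfun p s x < t ↔ dist x p.1 - p.2 < t ∧ ∀ q ∈ s, q.2 - dist x q.1 < t := by
  induction s with
  | nil => simp [hfun]
  | cons q s ih =>
    simp only [hfun, max_lt_iff, ih, List.mem_cons, forall_eq_or_imp]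
    tauto

theorem hfun_lip (p : M × ℝ) (s : List (M × ℝ)) : LipschitzWith 1 (hfun p s) := by
  apply LipschitzWith.of_le_add
  intro x y
  have h := (hfun_le (p := p) (s := s) (x := y) (t := hfun p s y)).1 le_rfl
  rw [hfun_le]
  constructor
  · have := dist_triangle x y p.1
    linarith [h.1]
  · intro q hq
    have := dist_triangle y x q.1
    rw [dist_comm y x] at this
    linarith [h.2 q hq]

end hfun

section good

variable {M : Type} [MetricSpace M] [CompactSpace M] [MeasurableSpace M] [BorelSpace M]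

theorem good_lemma (n : ℕ) (vol : Measure M) [IsFiniteMeasure vol] (m : M → ℝ)
    (hlip : ∀ x y, m x ≤ m y + dist x y) {R : ℝ} (hR : 0 < R)
    (H1 : ∀ x, (∀ r, 0 < r → r ≤ m x → ENNReal.ofReal (r ^ n / (n.factorial : ℝ)) ≤
      vol (ball x r)) → R ≤ m x) :
    ∃ ε : ℝ, 0 < ε ∧ ∀ z, (∀ r, 2 * ε < r → r < m z →
      (r - 2 * ε) ^ n / (n.factorial : ℝ) ≤ vol.real (ball z r) + ε) → R / 2 ≤ m z := by
  by_contra hcon
  push Not at hcon
  have hm : Continuous m := (LipschitzWith.of_le_add hlip).continuous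
  choose zs hzs using fun j : ℕ => hcon (1 / ((j : ℝ) + 1)) (by positivity)
  obtain ⟨z, -, φ, hφ, hlim⟩ := isCompact_univ.tendsto_subseq (x := zs) (fun _ => mem_univ _)
  have hmlim : Tendsto (fun j => m (zs (φ j))) atTop (𝓝 (m z)) := (hm.tendsto z).comp hlim
  have hmz : m z ≤ R / 2 := le_of_tendsto' hmlim fun j => (hzs (φ j)).2.le
  have heps : Tendsto (fun j : ℕ => 1 / (((φ j : ℕ) : ℝ) + 1)) atTop (𝓝 0) :=
    tendsto_one_div_add_atTop_nhds_zero_nat.comp hφ.tendsto_atTop
  have hgood : ∀ r, 0 < r → r ≤ m z → ENNReal.ofReal (r ^ n / (n.factorial : ℝ)) ≤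
      vol (ball z r) := by
    intro r hr hrm
    rw [ENNReal.ofReal_le_iff_le_toReal (measure_ne_top _ _)]
    change r ^ n / (n.factorial : ℝ) ≤ vol.real (ball z r)
    have claim : ∀ r' ∈ Ioo 0 r, r' ^ n / (n.factorial : ℝ) ≤ vol.real (ball z r) := by
      intro r' hr'
      have hL : Tendsto (fun j : ℕ => (r' - 2 * (1 / (((φ j : ℕ) : ℝ) + 1))) ^ n /
          (n.factorial : ℝ)) atTop (𝓝 ((r' - 2 * 0) ^ n / (n.factorial : ℝ))) :=
        ((tendsto_const_nhds.sub (heps.const_mul 2)).pow n).div_const _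
      have hRt : Tendsto (fun j : ℕ => vol.real (ball z r) + 1 / (((φ j : ℕ) : ℝ) + 1)) atTop
          (𝓝 (vol.real (ball z r) + 0)) := tendsto_const_nhds.add heps
      have hev : ∀ᶠ j : ℕ in atTop, (r' - 2 * (1 / (((φ j : ℕ) : ℝ) + 1))) ^ n /
          (n.factorial : ℝ) ≤ vol.real (ball z r) + 1 / (((φ j : ℕ) : ℝ) + 1) := by
        have h1 : ∀ᶠ j : ℕ in atTop, 2 * (1 / (((φ j : ℕ) : ℝ) + 1)) < r' := by
          have := heps.const_mul 2
          rw [mul_zero] at this
          exact this.eventually_lt_const hr'.1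
        have h2 : ∀ᶠ j : ℕ in atTop, r' < m (zs (φ j)) :=
          hmlim.eventually_const_lt (hr'.2.trans_le hrm)
        have h3 : ∀ᶠ j : ℕ in atTop, dist (zs (φ j)) z < r - r' :=
          (tendsto_iff_dist_tendsto_zero.1 hlim).eventually_lt_const (sub_pos.2 hr'.2)
        filter_upwards [h1, h2, h3] with j h1 h2 h3
        refine ((hzs (φ j)).1 r' h1 h2).trans ?_
        refine add_le_add (measureReal_mono ?_ (measure_ne_top _ _)) le_rfl
        intro y hy
        rw [mem_ball] at hy ⊢
        calc dist y z ≤ dist y (zs (φ j)) + dist (zs (φ j)) z := dist_triangle _ _ _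
          _ < r := by linarith
      have := le_of_tendsto_of_tendsto hL hRt hev
      simpa using this
    have hT : Tendsto (fun r' : ℝ => r' ^ n / (n.factorial : ℝ)) (𝓝[<] r)
        (𝓝 (r ^ n / (n.factorial : ℝ))) := by
      have : Continuous fun r' : ℝ => r' ^ n / (n.factorial : ℝ) := by fun_prop
      exact (this.tendsto r).mono_left nhdsWithin_le_nhds
    refine le_of_tendsto hT ?_
    filter_upwards [Ioo_mem_nhdsLT hr] with r' hr'
    exact claim r' hr'
  have := H1 z hgood
  linarith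

end good

section cluster

variable {M : Type} [MetricSpace M] [MeasurableSpace M] [BorelSpace M]

/-- the union of the smaller balls -/
def UU (δ : ℝ) : List (M × ℝ) → Set M
  | [] => ∅
  | q :: s => ball q.1 (q.2 - δ) ∪ UU δ s

omit [MeasurableSpace M] [BorelSpace M] in
theorem mem_UU {δ : ℝ} {s : List (M × ℝ)} {x : M} :
    x ∈ UU δ s ↔ ∃ q ∈ s, dist x q.1 < q.2 - δ := by
  induction s with
  | nil => simp [UU]
  | cons q s ih => simp [UU, ih]

theorem measurableSet_UU {δ : ℝ} (s : List (M × ℝ)) : MeasurableSet (UU δ s) := by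
  induction s with
  | nil => exact MeasurableSet.empty
  | cons q s ih => exact measurableSet_ball.union ih

/-- the hypotheses of the greedy construction -/
structure CD (n : ℕ) (vol : Measure M) (Z : Finset M) where
  R : ℝ
  K : ℕ
  η : ℝ
  err : ℝ
  c : M → M
  net : Finset M
  T : Set (M × ℝ)
  hR : 0 < R
  hK : 1 ≤ K
  hη : η ≤ R / 64
  herr : err ≤ (R / (32 * K)) ^ n / (2 * (n.factorial : ℝ))
  herr0 : 0 < err
  hc : ∀ z ∈ Z, c z ∈ net ∧ dist z (c z) < η
  hT1 : ∀ z ∈ Z, (c z, R / 16 - R / (32 * K)) ∈ T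
  hT2 : ∀ z ∈ Z, ∀ q < K, (c z, R / 16 + (2 * (q : ℝ) + 1) * (R / (32 * K))) ∈ T
  hexp : 2 * (n.factorial : ℝ) * (vol.real univ / R ^ n) * (32 * K) ^ n < Real.exp K
  hS : ∀ (p : M × ℝ) (s : List (M × ℝ)), p ∈ T → (∀ q ∈ s, q ∈ T) → s.length ≤ net.card →
    ∀ t, 0 < t → t < R / (32 * K) → ∀ Z' ⊆ Z, (∀ z ∈ Z', hfun p s z ≤ 0) →
      (Z'.card : ℝ) * t ^ n / (n.factorial : ℝ) ≤ vol.real {x | hfun p s x < t} + err

variable {n : ℕ} {vol : Measure M} [IsFiniteMeasure vol] {Z : Finset M}

open Classical in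
/-- valid lists -/
structure Valid (D : CD n vol Z) (s : List (M × ℝ)) : Prop where
  mem : ∀ p ∈ s, p ∈ D.T ∧ p.1 ∈ D.net ∧ D.R / 32 ≤ p.2
  nodup : (s.map Prod.fst).Nodup
  bound : ((Z.filter fun z => ∃ q ∈ s, dist z q.1 < q.2).card : ℝ) *
      ((D.R / (32 * D.K)) ^ n / (n.factorial : ℝ)) ≤
    Real.exp 1 * vol.real (UU (D.R / (32 * D.K)) s) + s.length * D.err

omit [BorelSpace M] [IsFiniteMeasure vol] in
theorem Valid.length_le {D : CD n vol Z} {s : List (M × ℝ)} (h : Valid D s) :
    s.length ≤ D.net.card := by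
  classical
  have h1 : (s.map Prod.fst).toFinset ⊆ D.net := by
    intro x hx
    rw [List.mem_toFinset, List.mem_map] at hx
    obtain ⟨p, hp, rfl⟩ := hx
    exact (h.mem p hp).2.1
  have h2 := Finset.card_le_card h1
  rwa [List.toFinset_card_of_nodup h.nodup, List.length_map] at h2

/-- passing to the limit `t → δ` -/
theorem limit_bound {a N δ' : ℝ} (hδ : 0 < δ')
    (h : ∀ t, 0 < t → t < δ' → N * t ^ n / (n.factorial : ℝ) ≤ a) :
    N * (δ' ^ n / (n.factorial : ℝ)) ≤ a := by
  have hT : Tendsto (fun t : ℝ => N * t ^ n / (n.factorial : ℝ)) (𝓝[<] δ')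
      (𝓝 (N * δ' ^ n / (n.factorial : ℝ))) := by
    have : Continuous fun t : ℝ => N * t ^ n / (n.factorial : ℝ) := by fun_prop
    exact (this.tendsto δ').mono_left nhdsWithin_le_nhds
  rw [← mul_div_assoc]
  refine le_of_tendsto hT ?_
  filter_upwards [Ioo_mem_nhdsLT hδ] with t ht
  exact h t ht.1 ht.2

theorem Valid.step {D : CD n vol Z} {s : List (M × ℝ)} (h : Valid D s) {z : M} (hz : z ∈ Z)
    (hun : ∀ q ∈ s, q.2 ≤ dist z q.1) : ∃ p, Valid D (p :: s) ∧ dist z p.1 < p.2 := by
  classical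
  obtain ⟨hcn, hcd⟩ := D.hc z hz
  have hR := D.hR
  have hKpos : (0 : ℝ) < D.K := by exact_mod_cast D.hK
  have hK1 : (1 : ℝ) ≤ D.K := by exact_mod_cast D.hK
  set δ' : ℝ := D.R / (32 * D.K) with hδ'
  have hδ0 : 0 < δ' := by positivity
  have hδ32 : δ' ≤ D.R / 32 := by
    rw [hδ']
    apply div_le_div_of_nonneg_left hR.le (by norm_num)
    linarith
  have hKδ : (D.K : ℝ) * δ' = D.R / 32 := by
    rw [hδ']; field_simp
  have hη := D.hη
  set U := UU δ' s with hU
  have hUm : MeasurableSet U := measurableSet_UU s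
  let A : ℕ → ℝ := fun q => vol.real (ball (D.c z) (D.R / 16 + 2 * (q : ℝ) * δ') \ U)
  -- points of {h < t}
  have hsub : ∀ (ρ t : ℝ), t ≤ δ' → {x | hfun (D.c z, ρ) s x < t} ⊆
      ball (D.c z) (ρ + t) \ U := by
    intro ρ t ht x hx
    rw [mem_ofPred_eq, hfun_lt] at hx
    refine ⟨?_, ?_⟩
    · rw [mem_ball]; linarith [hx.1]
    · rw [hU, mem_UU]
      rintro ⟨q, hq, hq'⟩
      linarith [hx.2 q hq]
  -- some radius is good
  have hq : ∃ q < D.K, A (q + 1) ≤ Real.exp 1 * A q := by
    by_contra hcon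
    push Not at hcon
    have hgrow : ∀ q ≤ D.K, Real.exp q * A 0 ≤ A q := by
      intro q
      induction q with
      | zero => intro _; simp
      | succ q ih =>
        intro hq
        have h1 := ih (by omega)
        have h2 := hcon q (by omega)
        have e : Real.exp ((q + 1 : ℕ) : ℝ) = Real.exp 1 * Real.exp q := by
          rw [← Real.exp_add]; push_cast; congr 1; ring
        rw [e, mul_assoc]
        exact (mul_le_mul_of_nonneg_left h1 (Real.exp_pos 1).le).trans h2.le
    have hA : Real.exp D.K * A 0 ≤ vol.real univ :=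
      (hgrow D.K le_rfl).trans (measureReal_mono (subset_univ _) (measure_ne_top _ _))
    have hmem : ({z} : Finset M) ⊆ Z := by simpa using hz
    have h1 := limit_bound (n := n) (a := A 0 + D.err) (N := 1) hδ0 (fun t ht ht' => by
      have h2 := D.hS (D.c z, D.R / 16 - δ') s (D.hT1 z hz) (fun q hq => (h.mem q hq).1)
        h.length_le t ht ht' {z} hmem (by
          intro z' hz'
          rw [Finset.mem_singleton] at hz'
          subst hz'
          rw [hfun_le]
          refine ⟨?_, fun q hq => by linarith [hun q hq]⟩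
          simp only
          linarith)
      rw [Finset.card_singleton, Nat.cast_one] at h2
      refine h2.trans (add_le_add (measureReal_mono ?_ (measure_ne_top _ _)) le_rfl)
      refine (hsub _ t ht'.le).trans (sdiff_subset_sdiff_left (ball_subset_ball ?_))
      push_cast
      linarith)
    rw [one_mul] at h1
    have herr := D.herr
    have h3 : δ' ^ n / (n.factorial : ℝ) = 2 * (δ' ^ n / (2 * (n.factorial : ℝ))) := by
      field_simp
    have h4 : δ' ^ n / (2 * (n.factorial : ℝ)) ≤ A 0 := by linarith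
    have h5 : Real.exp D.K * (δ' ^ n / (2 * (n.factorial : ℝ))) ≤ vol.real univ :=
      (mul_le_mul_of_nonneg_left h4 (Real.exp_pos _).le).trans hA
    have h6 := D.hexp
    have hn0 : (0 : ℝ) < n.factorial := by exact_mod_cast n.factorial_pos
    have h7 : δ' ^ n = D.R ^ n / (32 * D.K) ^ n := by rw [hδ', div_pow]
    have hRn : 0 < D.R ^ n := by positivity
    have hKn : (0 : ℝ) < (32 * D.K) ^ n := by positivity
    rw [h7] at h5
    have h8 : Real.exp D.K ≤ 2 * (n.factorial : ℝ) * (vol.real univ / D.R ^ n) *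
        (32 * D.K) ^ n := by
      have h9 : Real.exp D.K = (Real.exp D.K * (D.R ^ n / (32 * D.K) ^ n /
          (2 * (n.factorial : ℝ)))) * (2 * (n.factorial : ℝ) * (32 * D.K) ^ n / D.R ^ n) := by
        field_simp
      rw [h9]
      calc _ ≤ vol.real univ * (2 * (n.factorial : ℝ) * (32 * D.K) ^ n / D.R ^ n) :=
            mul_le_mul_of_nonneg_right h5 (by positivity)
        _ = _ := by field_simp
    linarith
  obtain ⟨q, hqK, hqA⟩ := hq
  set ρ : ℝ := D.R / 16 + (2 * (q : ℝ) + 1) * δ' with hρ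
  have hqn : (0 : ℝ) ≤ q := Nat.cast_nonneg q
  have hρ1 : D.R / 16 ≤ ρ := by
    rw [hρ]
    have : 0 ≤ (2 * (q : ℝ) + 1) * δ' := by positivity
    linarith
  have hpT : ((D.c z, ρ) : M × ℝ) ∈ D.T := D.hT2 z hz q hqK
  refine ⟨(D.c z, ρ), ⟨?_, ?_, ?_⟩, ?_⟩
  · intro p hp
    rcases List.mem_cons.1 hp with rfl | hp
    · exact ⟨hpT, hcn, by simp only; linarith⟩
    · exact h.mem p hp
  · rw [List.map_cons, List.nodup_cons]
    refine ⟨?_, h.nodup⟩
    rw [List.mem_map]
    rintro ⟨p, hp, hp'⟩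
    have h1 := hun p hp
    rw [hp'] at h1
    have h2 := (h.mem p hp).2.2
    linarith
  · -- the bound
    set new := Z.filter fun w => dist w (D.c z) < ρ ∧ ∀ q ∈ s, q.2 ≤ dist w q.1 with hnew
    have h1 : (Z.filter fun w => ∃ q ∈ (D.c z, ρ) :: s, dist w q.1 < q.2) ⊆
        (Z.filter fun w => ∃ q ∈ s, dist w q.1 < q.2) ∪ new := by
      intro w hw
      rw [Finset.mem_filter] at hw
      rw [Finset.mem_union, Finset.mem_filter, hnew, Finset.mem_filter]
      by_cases hc : ∃ q ∈ s, dist w q.1 < q.2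
      · exact Or.inl ⟨hw.1, hc⟩
      · push Not at hc
        refine Or.inr ⟨hw.1, ?_, hc⟩
        obtain ⟨q', hq', hd⟩ := hw.2
        rcases List.mem_cons.1 hq' with rfl | hq'
        · exact hd
        · exact absurd hd (not_lt.2 (hc q' hq'))
    have h2 : ((Z.filter fun w => ∃ q ∈ (D.c z, ρ) :: s, dist w q.1 < q.2).card : ℝ) ≤
        ((Z.filter fun w => ∃ q ∈ s, dist w q.1 < q.2).card : ℝ) + (new.card : ℝ) := by
      exact_mod_cast (Finset.card_le_card h1).trans (Finset.card_union_le _ _)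
    have h3 : (new.card : ℝ) * (δ' ^ n / (n.factorial : ℝ)) ≤ A (q + 1) + D.err := by
      apply limit_bound hδ0
      intro t ht ht'
      refine (D.hS (D.c z, ρ) s hpT (fun q hq => (h.mem q hq).1) h.length_le t ht ht' new
        (Finset.filter_subset _ _) ?_).trans (add_le_add (measureReal_mono ?_
          (measure_ne_top _ _)) le_rfl)
      · intro w hw
        rw [hnew, Finset.mem_filter] at hw
        rw [hfun_le]
        exact ⟨by simp only; linarith [hw.2.1], fun q hq => by linarith [hw.2.2 q hq]⟩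
      · refine (hsub _ t ht'.le).trans (sdiff_subset_sdiff_left (ball_subset_ball ?_))
        rw [hρ]
        push_cast
        linarith
    have h4 : vol.real (UU δ' ((D.c z, ρ) :: s)) = vol.real U + A q := by
      have e1 : UU δ' ((D.c z, ρ) :: s) = U ∪ (ball (D.c z) (D.R / 16 + 2 * (q : ℝ) * δ') \ U) := by
        rw [union_sdiff_self, union_comm]
        change ball (D.c z) (ρ - δ') ∪ U = _
        congr 2
        rw [hρ]; ring
      rw [e1, measureReal_union disjoint_sdiff_right (measurableSet_ball.diff hUm)]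
    have hfac : 0 ≤ δ' ^ n / (n.factorial : ℝ) := by positivity
    calc _ ≤ (((Z.filter fun w => ∃ q ∈ s, dist w q.1 < q.2).card : ℝ) + (new.card : ℝ)) *
          (δ' ^ n / (n.factorial : ℝ)) := mul_le_mul_of_nonneg_right h2 hfac
      _ ≤ (Real.exp 1 * vol.real U + s.length * D.err) + (A (q + 1) + D.err) := by
          rw [add_mul]; exact add_le_add h.bound h3
      _ ≤ (Real.exp 1 * vol.real U + s.length * D.err) + (Real.exp 1 * A q + D.err) := by
          linarith
      _ = _ := by
          rw [h4, List.length_cons]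
          push_cast
          ring
  · simp only
    linarith

theorem exists_cover (D : CD n vol Z) : ∃ s, Valid D s ∧ ∀ z ∈ Z, ∃ q ∈ s, dist z q.1 < q.2 := by
  classical
  have key : ∀ (k : ℕ) (s : List (M × ℝ)), Valid D s →
      (Z.filter fun z => ¬ ∃ q ∈ s, dist z q.1 < q.2).card = k →
      ∃ s, Valid D s ∧ ∀ z ∈ Z, ∃ q ∈ s, dist z q.1 < q.2 := by
    intro k
    induction k using Nat.strong_induction_on with
    | _ k ih =>
      intro s hs hk
      by_cases hall : ∀ z ∈ Z, ∃ q ∈ s, dist z q.1 < q.2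
      · exact ⟨s, hs, hall⟩
      · push Not at hall
        obtain ⟨z, hz, hun⟩ := hall
        obtain ⟨p, hp, hpz⟩ := hs.step hz hun
        refine ih _ ?_ (p :: s) hp rfl
        rw [← hk]
        apply Finset.card_lt_card
        refine ⟨?_, ?_⟩
        · intro w hw
          rw [Finset.mem_filter] at hw ⊢
          refine ⟨hw.1, fun hc => hw.2 ?_⟩
          obtain ⟨q, hq, hq'⟩ := hc
          exact ⟨q, List.mem_cons_of_mem _ hq, hq'⟩
        · intro hc
          have h1 : z ∈ Z.filter fun z => ¬ ∃ q ∈ s, dist z q.1 < q.2 := by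
            rw [Finset.mem_filter]
            refine ⟨hz, ?_⟩
            push Not
            exact hun
          have h2 := hc h1
          rw [Finset.mem_filter] at h2
          exact h2.2 ⟨p, List.mem_cons_self, hpz⟩
  refine key _ [] ⟨by simp, by simp, ?_⟩ rfl
  simp [UU]

/-- the count of the points -/
theorem card_bound (D : CD n vol Z) : (Z.card : ℝ) *
    ((D.R / (32 * D.K)) ^ n / (n.factorial : ℝ)) ≤
      Real.exp 1 * vol.real univ + D.net.card * D.err := by
  classical
  obtain ⟨s, hs, hcov⟩ := exists_cover D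
  have h1 : (Z.filter fun z => ∃ q ∈ s, dist z q.1 < q.2) = Z :=
    Finset.filter_true_of_mem hcov
  have h2 := hs.bound
  rw [h1] at h2
  refine h2.trans (add_le_add ?_ ?_)
  · exact mul_le_mul_of_nonneg_left (measureReal_mono (subset_univ _) (measure_ne_top _ _))
      (Real.exp_pos 1).le
  · exact mul_le_mul_of_nonneg_right (by exact_mod_cast hs.length_le) D.herr0.le

end cluster

end Pool.Agent.Lib.MP_72b724_gt.H57
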