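import Pool.Agent.Lib.MP_72b724_gt.H57.Cluster

/-!
# Module THMA, part 2: Theorem A
-/

open scoped ENNReal Topology BigOperators
open MeasureTheory Set Filter Topology Metric

namespace Pool.Agent.Lib.MP_72b724_gt.H57

theorem real_of_ofReal_le {M : Type} [MeasurableSpace M] {vol : Measure M} [IsFiniteMeasure vol]
    {a err : ℝ} {S : Set M} (herr : 0 ≤ err)
    (h : ENNReal.ofReal a ≤ vol S + ENNReal.ofReal err) : a ≤ vol.real S + err := by
  have h1 : vol S + ENNReal.ofReal err ≠ ⊤ :=
    ENNReal.add_ne_top.2 ⟨measure_ne_top _ _, ENNReal.ofReal_ne_top⟩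
  rw [ENNReal.ofReal_le_iff_le_toReal h1, ENNReal.toReal_add (measure_ne_top _ _)
    ENNReal.ofReal_ne_top, ENNReal.toReal_ofReal herr] at h
  exact h

theorem thmA (hS : SepThmStatement) (hN : NumStatement) : ThmAStatement := by
  classical
  intro n hn
  obtain ⟨C, hCn, hC⟩ := hN n hn
  have hfac : (0 : ℝ) < n.factorial := by exact_mod_cast n.factorial_pos
  refine ⟨C, lt_of_lt_of_le hfac hCn, ?_⟩
  intro M _ _ _ _ vol _ hE m hmpos hmlip R hR H1 H2
  obtain ⟨x₀, hx₀⟩ := H2
  have hRx := H1 x₀ hx₀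
  have hRn : 0 < R ^ n := by positivity
  have hV : R ^ n / (n.factorial : ℝ) ≤ vol.real univ := by
    have h1 := hx₀ R hR hRx
    have h2 : ENNReal.ofReal (R ^ n / (n.factorial : ℝ)) ≤ vol univ :=
      h1.trans (measure_mono (subset_univ _))
    rwa [ENNReal.ofReal_le_iff_le_toReal (measure_ne_top _ _)] at h2
  have hV0 : 0 < vol.real univ := lt_of_lt_of_le (by positivity) hV
  have hv : 1 / (n.factorial : ℝ) ≤ vol.real univ / R ^ n := by
    rw [le_div_iff₀ hRn]
    calc 1 / (n.factorial : ℝ) * R ^ n = R ^ n / (n.factorial : ℝ) := by ring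
      _ ≤ _ := hV
  obtain ⟨K, hK1, hK2, hK3⟩ := hC _ hv
  obtain ⟨ε0, hε0, hgood⟩ := good_lemma n vol m hmlip hR H1
  have hm : Continuous m := (LipschitzWith.of_le_add hmlip).continuous
  obtain ⟨μ0, hμ0, hμ⟩ : ∃ μ0 : ℝ, 0 < μ0 ∧ ∀ x, μ0 ≤ m x := by
    obtain ⟨y, -, hy⟩ := isCompact_univ.exists_isMinOn ⟨x₀, mem_univ _⟩ hm.continuousOn
    exact ⟨m y, hmpos y, fun x => hy (mem_univ x)⟩
  have hK0 : (0 : ℝ) < K := by exact_mod_cast hK1
  set δ : ℝ := R / (32 * K) with hδ
  have hδ0 : 0 < δ := by positivity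
  have hKδ : (K : ℝ) * δ = R / 32 := by rw [hδ]; field_simp
  set η : ℝ := min (μ0 / 2) (min ε0 (R / 64)) with hη
  have hη0 : 0 < η := lt_min (by positivity) (lt_min hε0 (by positivity))
  have hη1 : η < μ0 := (min_le_left _ _).trans_lt (by linarith)
  have hη2 : η ≤ ε0 := (min_le_right _ _).trans (min_le_left _ _)
  have hη3 : η ≤ R / 64 := (min_le_right _ _).trans (min_le_right _ _)
  obtain ⟨net0, -, hfin, hcov⟩ := (isCompact_univ (X := M)).finite_cover_balls hη0
  set net : Finset M := hfin.toFinset with hnet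
  have hcov' : ∀ y : M, ∃ x ∈ net, dist y x < η := by
    intro y
    have := hcov (mem_univ y)
    rw [mem_iUnion₂] at this
    obtain ⟨x, hx, hy⟩ := this
    exact ⟨x, by rw [hnet, Set.Finite.mem_toFinset]; exact hx, hy⟩
  let radii : Finset ℝ := insert (R / 16 - δ)
    ((Finset.range K).image fun q : ℕ => R / 16 + (2 * (q : ℝ) + 1) * δ)
  have hradii : ∀ ρ ∈ radii, ρ + δ ≤ R / 8 := by
    intro ρ hρ
    rw [Finset.mem_insert, Finset.mem_image] at hρ
    rcases hρ with rfl | ⟨q, hq, rfl⟩
    · linarith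
    · rw [Finset.mem_range] at hq
      have hq' : (q : ℝ) + 1 ≤ K := by exact_mod_cast hq
      have : ((q : ℝ) + 1) * δ ≤ R / 32 := by
        rw [← hKδ]; exact mul_le_mul_of_nonneg_right hq' hδ0.le
      linarith
  let T : Finset (M × ℝ) := (net ×ˢ radii).filter fun p => R / 4 < m p.1
  have hTm : ∀ p : M × ℝ, p ∈ T ↔ (p.1 ∈ net ∧ p.2 ∈ radii) ∧ R / 4 < m p.1 := by
    intro p
    simp only [T, Finset.mem_filter, Finset.mem_product]
  let ι : Type := ↥net ⊕ (↥T × {l : List ↥T // l.length ≤ net.card})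
  have hfinl : Finite {l : List ↥T // l.length ≤ net.card} :=
    (List.finite_length_le ↥T net.card).to_subtype
  have hι : Finite ι := inferInstanceAs (Finite (↥net ⊕ (↥T × {l : List ↥T // l.length ≤ net.card})))
  let f : ι → M → ℝ := Sum.elim (fun x y => dist y x.1)
    (fun w => hfun w.1.1 (w.2.1.map Subtype.val))
  let b : ι → ℝ := Sum.elim (fun x => m x.1) (fun _ => δ)
  have hf : ∀ i, LipschitzWith 1 (f i) := by
    rintro (x | w)
    · exact LipschitzWith.dist_left x.1
    · exact hfun_lip _ _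
  have hβ : ∃ β : ι → ℝ, (∀ i, 0 ≤ β i ∧ β i < b i) ∧ ∀ x, ∃ i, f i x < β i := by
    refine ⟨Sum.elim (fun _ => η) (fun _ => 0), ?_, ?_⟩
    · rintro (x | w)
      · exact ⟨hη0.le, hη1.trans_le (hμ x.1)⟩
      · exact ⟨le_rfl, hδ0⟩
    · intro y
      obtain ⟨x, hx, hy⟩ := hcov' y
      exact ⟨Sum.inl ⟨x, hx⟩, hy⟩
  set err : ℝ := min ε0 (min (δ ^ n / (2 * (n.factorial : ℝ)))
    (vol.real univ / (net.card + 1))) with herr
  have herr0 : 0 < err :=
    lt_min hε0 (lt_min (by positivity) (div_pos hV0 (by positivity)))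
  have herr1 : err ≤ ε0 := min_le_left _ _
  have herr2 : err ≤ δ ^ n / (2 * (n.factorial : ℝ)) := (min_le_right _ _).trans (min_le_left _ _)
  have herr3 : err ≤ vol.real univ / (net.card + 1) :=
    (min_le_right _ _).trans (min_le_right _ _)
  obtain ⟨N, u, Z, hu, hcovu, hwall, hsimple, hcount⟩ := hS n hn M vol hE ι f b hf hβ err herr0
  -- centres and radii
  have hcr : ∀ k l, ∃ (ctr : M) (rad : ℝ), (∀ x, u k l x ≤ 0 → dist x ctr < rad) ∧
      rad < m ctr := by
    intro k l
    rcases hu k l with ⟨i, ρ, hρ0, hρb, hul⟩ | hul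
    · rcases i with x | w
      · have hρb' : ρ < m x.1 := hρb
        refine ⟨x.1, (ρ + m x.1) / 2, ?_, by linarith⟩
        intro y hy
        rw [hul] at hy
        have : dist y x.1 - ρ ≤ 0 := hy
        linarith
      · have hρb' : ρ < δ := hρb
        have hw := (hTm w.1.1).1 w.1.2
        have hr := hradii _ hw.1.2
        refine ⟨w.1.1.1, R / 8, ?_, by linarith [hw.2]⟩
        intro y hy
        rw [hul] at hy
        have h1 : hfun w.1.1 (w.2.1.map Subtype.val) y ≤ ρ := by
          have : hfun w.1.1 (w.2.1.map Subtype.val) y - ρ ≤ 0 := hy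
          linarith
        have h2 := (hfun_le.1 h1).1
        linarith
    · refine ⟨x₀, 0, ?_, hmpos _⟩
      intro y hy
      rw [hul] at hy
      exact absurd hy (by norm_num)
  choose ctr rad hcr1 hcr2 using hcr
  have hlip : ∀ k l, LipschitzWith 1 (u k l) := by
    intro k l
    rcases hu k l with ⟨i, ρ, -, -, hul⟩ | hul
    · rw [hul]
      apply LipschitzWith.of_le_add
      intro x y
      have := (hf i).le_add_mul x y
      simp only [NNReal.coe_one, one_mul] at this
      linarith
    · rw [hul]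
      exact LipschitzWith.const' _
  -- the points of `Z` are good
  have hZgood : ∀ z ∈ Z, R / 2 ≤ m z := by
    intro z hz
    apply hgood
    intro r hr hrm
    obtain ⟨x, hx, hzx⟩ := hcov' z
    have h1 : m z ≤ m x + dist z x := hmlip z x
    have h2 := hcount (Sum.inl ⟨x, hx⟩) η (r - η) {z} (by simpa using hz) (by
      intro z' hz'
      rw [Finset.mem_singleton] at hz'
      subst hz'
      exact hzx.le) hη0.le (by linarith) (by
        change r - η < m x
        linarith)
    have h3 := real_of_ofReal_le herr0.le h2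
    rw [Finset.card_singleton, Nat.cast_one, one_mul] at h3
    have h4 : (r - 2 * ε0) ^ n / (n.factorial : ℝ) ≤ (r - η - η) ^ n / (n.factorial : ℝ) := by
      apply div_le_div_of_nonneg_right _ hfac.le
      apply pow_le_pow_left₀ (by linarith)
      linarith
    refine h4.trans (h3.trans (add_le_add (measureReal_mono ?_ (measure_ne_top _ _)) herr1))
    intro y hy
    have hy' : dist y x < r - η := hy
    rw [mem_ball]
    calc dist y z ≤ dist y x + dist x z := dist_triangle _ _ _
      _ < r := by rw [dist_comm x z]; linarith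
  -- the cluster data
  choose c hc1 hc2 using hcov'
  have hmc : ∀ z ∈ Z, R / 4 < m (c z) := by
    intro z hz
    have h1 := hmlip z (c z)
    have h2 := hZgood z hz
    have h3 := hc2 z
    linarith
  let D : CD n vol Z :=
    { R := R
      K := K
      η := η
      err := err
      c := c
      net := net
      T := (T : Set (M × ℝ))
      hR := hR
      hK := hK1
      hη := hη3
      herr := herr2
      herr0 := herr0
      hc := fun z _ => ⟨hc1 z, hc2 z⟩
      hT1 := by
        intro z hz
        rw [Finset.mem_coe, hTm]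
        exact ⟨⟨hc1 z, Finset.mem_insert_self _ _⟩, hmc z hz⟩
      hT2 := by
        intro z hz q hq
        rw [Finset.mem_coe, hTm]
        exact ⟨⟨hc1 z, Finset.mem_insert_of_mem (Finset.mem_image.2
          ⟨q, Finset.mem_range.2 hq, rfl⟩)⟩, hmc z hz⟩
      hexp := hK2
      hS := by
        intro p s hp hs hlen t ht ht' Z' hZ' hh
        obtain ⟨s', rfl⟩ : ∃ s' : List ↥T, s'.map Subtype.val = s := by
          clear hlen hh
          induction s with
          | nil => exact ⟨[], rfl⟩
          | cons q s ih =>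
            obtain ⟨s', hs'⟩ := ih fun q hq => hs q (List.mem_cons_of_mem _ hq)
            exact ⟨⟨q, hs q List.mem_cons_self⟩ :: s', by rw [List.map_cons, hs']⟩
        rw [List.length_map] at hlen
        have h2 := hcount (Sum.inr (⟨p, hp⟩, ⟨s', hlen⟩)) 0 t Z' hZ' hh le_rfl ht ht'
        have h3 := real_of_ofReal_le herr0.le h2
        rw [sub_zero] at h3
        exact h3 }
  have hcard : (Z.card : ℝ) * (δ ^ n / (n.factorial : ℝ)) ≤
      Real.exp 1 * vol.real univ + net.card * err := card_bound D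
  have hcard2 : (net.card : ℝ) * err ≤ vol.real univ := by
    calc (net.card : ℝ) * err ≤ net.card * (vol.real univ / (net.card + 1)) :=
          mul_le_mul_of_nonneg_left herr3 (Nat.cast_nonneg _)
      _ = vol.real univ * (net.card / (net.card + 1)) := by ring
      _ ≤ vol.real univ * 1 := by
          apply mul_le_mul_of_nonneg_left _ hV0.le
          rw [div_le_one (by positivity)]
          linarith
      _ = _ := mul_one _
  have hcard3 : (Z.card : ℝ) * (δ ^ n / (n.factorial : ℝ)) ≤ 4 * vol.real univ := by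
    have := Real.exp_one_lt_d9
    nlinarith
  have hcard4 : (Z.card : ℝ) ≤ 4 * (n.factorial : ℝ) * (32 * K) ^ n *
      (vol.real univ / R ^ n) := by
    have hδn : δ ^ n = R ^ n / (32 * K) ^ n := by rw [hδ, div_pow]
    have hKn : (0 : ℝ) < (32 * K) ^ n := by positivity
    have e1 : (Z.card : ℝ) = (Z.card : ℝ) * (δ ^ n / (n.factorial : ℝ)) *
        ((n.factorial : ℝ) * (32 * K) ^ n / R ^ n) := by
      rw [hδn]; field_simp
    rw [e1]
    calc _ ≤ 4 * vol.real univ * ((n.factorial : ℝ) * (32 * K) ^ n / R ^ n) :=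
          mul_le_mul_of_nonneg_right hcard3 (by positivity)
      _ = _ := by ring
  refine ⟨N, ⟨u, ctr, rad, hlip, hcovu, hcr1⟩, Z, hcr2, hwall, hsimple, ?_, hcard4.trans hK3⟩
  calc (1 : ℝ) = (n.factorial : ℝ) * (1 / (n.factorial : ℝ)) := by field_simp
    _ ≤ C * (vol.real univ / R ^ n) :=
        mul_le_mul hCn hv (by positivity) (hfac.le.trans hCn)

end Pool.Agent.Lib.MP_72b724_gt.H57
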