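import Pool.Agent.Lib.MP_72b724_gt.Interfaces
import Pool.Agent.Lib.MP_89fcdb_gt.H35.Loc
import Pool.Agent.Lib.MP_89fcdb_gt.H27.TH
import Pool.Agent.Lib.MP_904b2a_gt.H41.Cochains

/-!
# MP_72b724_gt, module UNIV: the class of the rainbow cocycle
-/

open scoped ENNReal Topology BigOperators
open MeasureTheory Set Filter Topology Pool.Agent.Lib.MP_904b2a_gt Pool.Agent.Lib.MP_89fcdb_gt

namespace Pool.Agent.Lib.MP_72b724_gt.H57

noncomputable section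

/-! ### Types -/

theorem typ_eq_none_iff {D : ℕ} {θ : ℝ} {y : Fin D → ℝ} : typ θ y = none ↔ y ∉ boxc D θ := by
  unfold typ boxc
  constructor
  · intro h hy
    obtain ⟨k, hk⟩ := hy
    have hne : (Finset.univ.filter fun k => θ < |y k|).Nonempty :=
      ⟨k, Finset.mem_filter.mpr ⟨Finset.mem_univ _, hk⟩⟩
    rw [dif_pos hne] at h
    exact absurd h (by simp)
  · intro h
    rw [dif_neg]
    rintro ⟨k, hk⟩
    exact h ⟨k, (Finset.mem_filter.mp hk).2⟩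

theorem typ_eq_some {D : ℕ} {θ : ℝ} {y : Fin D → ℝ} {k : Fin D} {b : Bool}
    (h : typ θ y = some (k, b)) : θ < |y k| ∧ b = decide (0 < y k) := by
  unfold typ at h
  split_ifs at h with hne
  · have h1 := Option.some.inj h
    have hk : (Finset.univ.filter fun k => θ < |y k|).min' hne = k := congrArg Prod.fst h1
    have hb := congrArg Prod.snd h1
    have h2 := Finset.min'_mem _ hne
    rw [hk] at h2
    dsimp only at hb
    rw [hk] at hb
    exact ⟨(Finset.mem_filter.mp h2).2, hb.symm⟩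

theorem typ_smul {D : ℕ} {θ c : ℝ} (hc : 0 < c) (y : Fin D → ℝ) :
    typ (c * θ) (c • y) = typ θ y := by
  have h1 : (Finset.univ.filter fun k => c * θ < |(c • y) k|) =
      (Finset.univ.filter fun k => θ < |y k|) := by
    ext k
    simp only [Finset.mem_filter, Finset.mem_univ, true_and, Pi.smul_apply, smul_eq_mul, abs_mul,
      abs_of_pos hc]
    exact mul_lt_mul_iff_right₀ hc
  have h2 : ∀ k, decide (0 < (c • y) k) = decide (0 < y k) := by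
    intro k
    simp only [Pi.smul_apply, smul_eq_mul, decide_eq_decide]
    exact mul_pos_iff_of_pos_left hc
  unfold typ
  simp only [h1, h2]

theorem consist_typ {D m : ℕ} {θ : ℝ} (hθ : 0 < θ) (y : Fin m → Fin D → ℝ)
    (h : ∀ i j k, |y i k - y j k| < θ) : Consist (fun i => typ θ (y i)) := by
  intro i j k b b' h1 h2
  obtain ⟨h3, h4⟩ := typ_eq_some h1
  obtain ⟨h5, h6⟩ := typ_eq_some h2
  have h7 := h i j k
  rw [h4, h6, decide_eq_decide]
  rw [abs_lt] at h7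
  rw [lt_abs] at h3 h5
  constructor
  · intro h8
    rcases h3 with h3 | h3 <;> rcases h5 with h5 | h5 <;> linarith
  · intro h8
    rcases h3 with h3 | h3 <;> rcases h5 with h5 | h5 <;> linarith

theorem rb_eq_zero {D : ℕ} (s : Fin D → Bool) (t : Fin (D + 1) → Option (Fin D × Bool))
    (h : ∀ i, t i ≠ none) : rb s t = 0 := by
  unfold rb
  rw [dif_neg]
  rintro ⟨σ, hσ⟩
  apply h (σ.symm 0)
  rw [hσ, σ.apply_symm_apply]
  rfl

/-! ### Small simplices -/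

theorem smap_vertex {m n : ℕ} (f : Fin (m + 1) → Fin (n + 1)) (i : Fin (m + 1)) :
    smap f (stdSimplex.vertex i) = stdSimplex.vertex (f i) :=
  stdSimplex.map_vertex f i

/-- The cover by small open sets. -/
def smallSets (E : Type) [PseudoMetricSpace E] (θ : ℝ) : Type :=
  {V : Set E // IsOpen V ∧ ∀ x ∈ V, ∀ y ∈ V, dist x y < θ}

/-- The cover by small open sets, as a family. -/
def fam (E : Type) [PseudoMetricSpace E] (θ : ℝ) : smallSets E θ → Set E := fun V => V.1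

theorem fam_cover {E : Type} [PseudoMetricSpace E] {θ : ℝ} (hθ : 0 < θ) :
    ⋃ V, fam E θ V = univ := by
  rw [eq_univ_iff_forall]
  intro x
  refine mem_iUnion.mpr ⟨⟨Metric.ball x (θ / 2), Metric.isOpen_ball, fun y hy z hz => ?_⟩,
    Metric.mem_ball_self (half_pos hθ)⟩
  have h1 : dist y x < θ / 2 := hy
  have h2 : dist z x < θ / 2 := hz
  have h3 := dist_triangle_right y z x
  linarith

theorem exists_small {E : Type} [PseudoMetricSpace E] {θ : ℝ} {K : Set E} (hK : IsCompact K)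
    (hne : K.Nonempty) (h : ∀ x ∈ K, ∀ y ∈ K, dist x y < θ) :
    ∃ V : Set E, IsOpen V ∧ (∀ x ∈ V, ∀ y ∈ V, dist x y < θ) ∧ K ⊆ V := by
  obtain ⟨p, hp, hmax⟩ := (hK.prod hK).exists_isMaxOn (hne.prod hne)
    (f := fun p : E × E => dist p.1 p.2) (by fun_prop)
  have h1 : dist p.1 p.2 < θ := h _ hp.1 _ hp.2
  have hε : 0 < (θ - dist p.1 p.2) / 2 := by linarith
  refine ⟨Metric.thickening ((θ - dist p.1 p.2) / 2) K, Metric.isOpen_thickening,
    fun x hx y hy => ?_, Metric.self_subset_thickening hε K⟩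
  obtain ⟨x', hx', hxx⟩ := Metric.mem_thickening_iff.mp hx
  obtain ⟨y', hy', hyy⟩ := Metric.mem_thickening_iff.mp hy
  have h2 : dist x' y' ≤ dist p.1 p.2 := (isMaxOn_iff.mp hmax) (x', y') (mem_prod.mpr ⟨hx', hy'⟩)
  have h3 := dist_triangle4 x x' y' y
  rw [dist_comm y' y] at h3
  linarith

theorem mem_small_fam {E : Type} [PseudoMetricSpace E] {θ : ℝ} {n : ℕ} {τ : C(Simp n, E)} :
    τ ∈ H41.small (fam E θ) n ↔ ∀ p q, dist (τ p) (τ q) < θ := by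
  constructor
  · rintro ⟨V, hV⟩ p q
    exact V.2.2 _ (hV (mem_range_self p)) _ (hV (mem_range_self q))
  · intro h
    obtain ⟨V, hV, hV', hVr⟩ := exists_small (isCompact_range τ.continuous)
      ⟨_, mem_range_self (stdSimplex.vertex 0)⟩ (θ := θ) (by
        rintro _ ⟨p, rfl⟩ _ ⟨q, rfl⟩
        exact h p q)
    exact ⟨⟨V, hV, hV'⟩, hVr⟩

theorem dist_lt_iff {D : ℕ} {θ : ℝ} (hθ : 0 < θ) {x y : Fin D → ℝ} :
    dist x y < θ ↔ ∀ k, |x k - y k| < θ := by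
  rw [dist_pi_lt_iff hθ]
  rfl

/-- Small relative cocycles extend. -/
theorem exists_relCocycle {X : Type} [TopologicalSpace X] {κ : Type} {A : Type} [AddCommGroup A]
    (U : κ → Set X) (hU : ∀ i, IsOpen (U i)) (hc : ⋃ i, U i = univ) {n : ℕ} {S : Set X}
    (φ : Coch n X A) (h : ∀ σ ∈ H41.small U (n + 1), cob n φ σ = 0) (hS : φ ∈ relCoch A S n) :
    ∃ ψ ∈ relCocycles A S n, ∀ σ ∈ H41.small U n, ψ σ = φ σ := by
  obtain ⟨ρ, D, h1, h2, h3, -, -, h6⟩ := H41.small_simplices U hU hc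
  refine ⟨fun σ => H41.ev φ (ρ n (Finsupp.single σ 1)), ⟨fun σ hσ => ?_, ?_⟩, fun σ hσ => ?_⟩
  · refine H41.ev_eq_zero (S := {τ : C(Simp n, X) | range τ ⊆ S}) (fun τ hτ => ?_) ?_
    · exact hS τ (fun t => hτ (mem_range_self t))
    · refine (h6 n S _ ?_).1
      refine Finsupp.single_mem_supported ℤ _ ?_
      rintro _ ⟨t, rfl⟩
      exact hσ t
  · change cob n _ = 0
    funext σ
    have e : H41.ev (fun σ => H41.ev φ (ρ n (Finsupp.single σ 1))) =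
        (H41.ev φ).comp (ρ n).toAddMonoidHom := by
      refine Finsupp.addHom_ext' fun σ => ?_
      ext
      simp
    rw [← H41.ev_single (cob n _) σ, ← H41.ev_sbd, e]
    change H41.ev φ (ρ n (H41.sbd n (Finsupp.single σ 1))) = 0
    rw [← h1, H41.ev_sbd]
    exact H41.ev_eq_zero h (h2 _ _)
  · dsimp only
    rw [(h3 n _ (H41.single_mem_supported hσ)).1, H41.ev_single]

/-- The rainbow cochain. -/
def rbC (D : ℕ) (θ : ℝ) (s : Fin D → Bool) : Coch D (Fin D → ℝ) ℤ :=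
  fun τ => rb s (fun i => typ θ (τ (stdSimplex.vertex i)))

theorem cob_rbC (hR : RbCocStatement) (D : ℕ) {θ : ℝ} (hθ : 0 < θ) (s : Fin D → Bool)
    (σ : C(Simp (D + 1), Fin D → ℝ)) (h1 : ∀ p q k, |σ p k - σ q k| < θ) :
    cob D (rbC D θ s) σ = 0 := by
  have h2 := hR D s (fun i => typ θ (σ (stdSimplex.vertex i)))
    (consist_typ hθ (fun i => σ (stdSimplex.vertex i)) (fun i j => h1 _ _))
  rw [cob_apply, Finset.sum_range, ← h2]
  refine Finset.sum_congr rfl (fun i _ => ?_)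
  rw [smul_eq_mul]
  refine congrArg (fun t => (-1) ^ (i : ℕ) * rb s t) ?_
  funext a
  change typ θ (σ (smap (fv D i) (stdSimplex.vertex a))) = _
  rw [smap_vertex, H35.fv_eq_succAbove]

/-- The rainbow cocycle. -/
theorem exists_rb (hR : RbCocStatement) (D : ℕ) {θ : ℝ} (hθ : 0 < θ) (s : Fin D → Bool) :
    ∃ w : relCocycles ℤ (boxc D θ) D, ∀ τ : Sing D (Fin D → ℝ), (∀ p q k, |τ p k - τ q k| < θ) →
      w.1 τ = rb s (fun i => typ θ (τ (stdSimplex.vertex i))) := by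
  have hcob : ∀ σ ∈ H41.small (fam (Fin D → ℝ) θ) (D + 1), cob D (rbC D θ s) σ = 0 := by
    intro σ hσ
    exact cob_rbC hR D hθ s σ (fun p q => (dist_lt_iff hθ).mp (mem_small_fam.mp hσ p q))
  have hrel : rbC D θ s ∈ relCoch ℤ (boxc D θ) D := fun σ hσ =>
    rb_eq_zero s _ (fun i h => typ_eq_none_iff.mp h (hσ _))
  obtain ⟨ψ, hψ, hs⟩ := exists_relCocycle (A := ℤ) (fam (Fin D → ℝ) θ) (fun V => V.2.1)
    (fam_cover hθ) (n := D) (S := boxc D θ) (rbC D θ s) hcob hrel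
  exact ⟨⟨ψ, hψ⟩, fun τ hτ => hs τ (mem_small_fam.mpr (fun p q =>
    (dist_lt_iff hθ).mpr (hτ p q)))⟩

/-! ### The class -/

theorem cm_zmultiples {n : ℕ} {X : Type} [TopologicalSpace X] {S : Set X} (ι : HR n S ℤ) (a : ℤ) :
    HR.cm (zmultiplesHom ℤ a) ι = a • ι := by
  obtain ⟨z, rfl⟩ := HR.mk_surjective n ι
  rw [HR.cm_mk, ← map_zsmul]
  congr 1
  apply Subtype.ext
  funext σ
  change (zmultiplesHom ℤ a) (z.1 σ) = (a • z.1) σ
  rw [zmultiplesHom_apply, Pi.smul_apply, smul_eq_mul, smul_eq_mul, mul_comm]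

theorem locEuc (n : ℕ) : LocEuc n (Fin n → ℝ) := fun x =>
  ⟨fun y => y + x, (Homeomorph.addRight x).isOpenEmbedding, zero_add x⟩

theorem exists_univ (n : ℕ) : ∃ ι : HR (n + 1) ({0}ᶜ : Set (Fin (n + 1) → ℝ)) ℤ, IsUniv ι :=
  H35.locGen TH27.thomStatement n (Fin (n + 1) → ℝ) (locEuc (n + 1)) 0

theorem boxc_one (n : ℕ) : boxc n 1 = (Metric.closedBall (0 : Fin n → ℝ) 1)ᶜ := by
  ext y
  rw [mem_compl_iff, mem_closedBall_zero_iff, pi_norm_le_iff_of_nonneg zero_le_one]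
  unfold boxc
  simp only [mem_ofPred_eq, not_forall, not_le, Real.norm_eq_abs]

theorem pb_bij (n : ℕ) (m : ℕ) (S : Set (Fin n → ℝ))
    (hS : S = (Metric.closedBall (0 : Fin n → ℝ) 1)ᶜ)
    (h : MapsTo (ContinuousMap.id (Fin n → ℝ)) S ({0}ᶜ : Set (Fin n → ℝ))) :
    Function.Bijective (HR.pb (n := m) (A := ℤ) (ContinuousMap.id (Fin n → ℝ)) h) := by
  subst hS
  exact H35.ball_compl_bijective (A := ℤ) (0 : Fin n → ℝ) (by simp) m

/-- Scaling. -/
def scal (n : ℕ) {c : ℝ} (hc : 0 < c) : (Fin n → ℝ) ≃ₜ (Fin n → ℝ) :=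
  Homeomorph.smulOfNeZero c hc.ne'

theorem scal_apply (n : ℕ) {c : ℝ} (hc : 0 < c) (y : Fin n → ℝ) : scal n hc y = c • y := rfl

theorem isUniv_pb {n : ℕ} {X : Type} [TopologicalSpace X] {S : Set X} (e : X ≃ₜ X)
    (h : MapsTo e S S) (h' : MapsTo e.symm S S) {ι : HR n S ℤ} (hι : IsUniv ι) :
    IsUniv (HR.pb (e : C(X, X)) h ι) := by
  intro A _
  have h1 : (fun a : A => HR.cm (zmultiplesHom A a) (HR.pb (e : C(X, X)) h ι)) =
      (HR.pb (A := A) (n := n) (e : C(X, X)) h) ∘ (fun a : A => HR.cm (zmultiplesHom A a) ι) := by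
    funext a
    rw [Function.comp_apply, HR.pb_cm]
  rw [h1]
  exact (HR.pb_bijective_homeo (A := A) e h h' n).comp (hι A)

theorem mapsTo_boxc_one (n : ℕ) : MapsTo (ContinuousMap.id (Fin (n + 1) → ℝ)) (boxc (n + 1) 1)
    ({0}ᶜ : Set (Fin (n + 1) → ℝ)) := by
  rintro y ⟨k, hk⟩ rfl
  simp at hk
  linarith

/-- The case `θ = 1`. -/
theorem univ_one (hR : RbCocStatement) (n : ℕ)
    (ι : HR (n + 1) ({0}ᶜ : Set (Fin (n + 1) → ℝ)) ℤ) (hι : IsUniv ι) (s : Fin (n + 1) → Bool) :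
    ∃ (m : ℤ) (w : relCocycles ℤ (boxc (n + 1) 1) (n + 1)),
      (∀ τ : Sing (n + 1) (Fin (n + 1) → ℝ), (∀ p q k, |τ p k - τ q k| < 1) →
        w.1 τ = rb s (fun i => typ 1 (τ (stdSimplex.vertex i)))) ∧
      HR.mk (n + 1) w = m • HR.pb (ContinuousMap.id (Fin (n + 1) → ℝ)) (mapsTo_boxc_one n) ι := by
  obtain ⟨w, hw⟩ := exists_rb hR (n + 1) one_pos s
  obtain ⟨u, hu⟩ := (pb_bij (n + 1) (n + 1) _ (boxc_one (n + 1)) (mapsTo_boxc_one n)).2
    (HR.mk (n + 1) w)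
  obtain ⟨m, hm⟩ := (hι ℤ).2 u
  refine ⟨m, w, hw, ?_⟩
  dsimp only at hm
  rw [cm_zmultiples] at hm
  rw [← hu, ← hm, map_zsmul]

theorem scal_boxc (n : ℕ) {θ : ℝ} (hθ : 0 < θ) :
    MapsTo (scal n (inv_pos.mpr hθ)) (boxc n θ) (boxc n 1) := by
  rintro y ⟨k, hk⟩
  refine ⟨k, ?_⟩
  rw [scal_apply, Pi.smul_apply, smul_eq_mul, abs_mul, abs_of_pos (inv_pos.mpr hθ), inv_mul_eq_div,
    lt_div_iff₀ hθ, one_mul]
  exact hk

theorem scal_compl (n : ℕ) {c : ℝ} (hc : 0 < c) :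
    MapsTo (scal n hc) ({0}ᶜ : Set (Fin n → ℝ)) ({0}ᶜ) := by
  intro y hy h
  apply hy
  rw [mem_singleton_iff] at h ⊢
  rw [scal_apply] at h
  exact (smul_eq_zero_iff_right hc.ne').mp h

theorem scal_symm_compl (n : ℕ) {c : ℝ} (hc : 0 < c) :
    MapsTo (scal n hc).symm ({0}ᶜ : Set (Fin n → ℝ)) ({0}ᶜ) := by
  intro y hy h
  apply hy
  rw [mem_singleton_iff] at h ⊢
  rw [← (scal n hc).apply_symm_apply y, h, scal_apply, smul_zero]

theorem scal_rb (n : ℕ) {θ : ℝ} (hθ : 0 < θ) (s : Fin n → Bool)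
    (w : Coch n (Fin n → ℝ) ℤ)
    (hw : ∀ τ : Sing n (Fin n → ℝ), (∀ p q k, |τ p k - τ q k| < 1) →
      w τ = rb s (fun i => typ 1 (τ (stdSimplex.vertex i))))
    (τ : Sing n (Fin n → ℝ)) (hτ : ∀ p q k, |τ p k - τ q k| < θ) :
    pbC n (scal n (inv_pos.mpr hθ) : C(Fin n → ℝ, Fin n → ℝ)) w τ =
      rb s (fun i => typ θ (τ (stdSimplex.vertex i))) := by
  have h1 := hw ((scal n (inv_pos.mpr hθ) : C(Fin n → ℝ, Fin n → ℝ)).comp τ) (fun p q k => by
    change |θ⁻¹ * τ p k - θ⁻¹ * τ q k| < 1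
    rw [← mul_sub, abs_mul, abs_of_pos (inv_pos.mpr hθ), inv_mul_eq_div, div_lt_one hθ]
    exact hτ p q k)
  refine h1.trans (congrArg (rb s) ?_)
  funext i
  change typ 1 (θ⁻¹ • τ (stdSimplex.vertex i)) = _
  have h4 := typ_smul (θ := θ) (inv_pos.mpr hθ) (τ (stdSimplex.vertex i))
  rwa [inv_mul_cancel₀ hθ.ne'] at h4

theorem scal_class (n : ℕ) {θ : ℝ} (hθ : 0 < θ)
    (h0 : MapsTo (ContinuousMap.id (Fin (n + 1) → ℝ)) (boxc (n + 1) θ)
      ({0}ᶜ : Set (Fin (n + 1) → ℝ)))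
    (ι : HR (n + 1) ({0}ᶜ : Set (Fin (n + 1) → ℝ)) ℤ) :
    HR.pb (scal (n + 1) (inv_pos.mpr hθ) : C(Fin (n + 1) → ℝ, Fin (n + 1) → ℝ))
      (scal_boxc (n + 1) hθ)
      (HR.pb (ContinuousMap.id (Fin (n + 1) → ℝ)) (mapsTo_boxc_one n) ι) =
    HR.pb (ContinuousMap.id (Fin (n + 1) → ℝ)) h0
      (HR.pb (scal (n + 1) (inv_pos.mpr hθ) : C(Fin (n + 1) → ℝ, Fin (n + 1) → ℝ))
        (scal_compl (n + 1) (inv_pos.mpr hθ)) ι) := by
  obtain ⟨z, rfl⟩ := HR.mk_surjective (n + 1) ι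
  rfl

/-- [UNIV] -/
theorem univ (hR : RbCocStatement) : UnivStatement := by
  intro n
  obtain ⟨ι, hι⟩ := exists_univ n
  choose m w hw hm using univ_one hR n ι hι
  refine ⟨Finset.univ.sup (fun s => (m s).natAbs), fun θ hθ s h0 => ?_⟩
  refine ⟨⟨pbC (n + 1) (scal (n + 1) (inv_pos.mpr hθ) : C(Fin (n + 1) → ℝ, Fin (n + 1) → ℝ))
    (w s).1, pbC_mem_relCocycles _ (scal_boxc (n + 1) hθ) (w s).2⟩,
    scal_rb (n + 1) hθ s (w s).1 (hw s),
    HR.pb (scal (n + 1) (inv_pos.mpr hθ) : C(Fin (n + 1) → ℝ, Fin (n + 1) → ℝ))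
      (scal_compl (n + 1) (inv_pos.mpr hθ)) ι, m s,
    isUniv_pb _ (scal_compl (n + 1) (inv_pos.mpr hθ))
      (scal_symm_compl (n + 1) (inv_pos.mpr hθ)) hι, ?_, ?_⟩
  · rw [Int.abs_eq_natAbs]
    exact Int.ofNat_le.mpr (Finset.le_sup (f := fun s => (m s).natAbs) (Finset.mem_univ s))
  · rw [← scal_class n hθ h0, ← map_zsmul, ← hm s, HR.pb_mk]

end

end Pool.Agent.Lib.MP_72b724_gt.H57
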